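import Pool.Agent.R696.RG.Tower
set_option autoImplicit false

/-!
# Classes which come from the field of constants

`H^i(k, n) → H^i(k(t_0, ..., t_r), n)` is onto if and only if `H^(i-1)(F, n-1) = 0` for all extensions
`F` of `k` of transcendence degree at most `r`, for `i ≤ 1` (`bij_iff`, `bij_rat_iff`).
-/

namespace Pool.Agent.R696.RG

open Polynomial IntermediateField Pool.Agent.R388.BS

variable {T : FieldCohomology} {i n : ℤ}

section fields

variable {k : Type} [Field k]

/-- A finitely generated field of transcendence degree at most `r` maps to a field generated by one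
algebraic element over `k(t_0, ..., t_(m-1))`, `m ≤ r`. -/
theorem exists_model' {F : Type} [Field F] [Algebra k F] [Algebra.EssFiniteType k F] {r : ℕ}
    (hr : Algebra.trdeg k F ≤ r) :
    ∃ m ≤ r, ∃ (π : (Kf k m)[X]) (_ : Fact (Irreducible π)), Nonempty (F →+* AdjoinRoot π) := by
  obtain ⟨s, hs⟩ := exists_finset_isTranscendenceBasis k F
  have hm : Nat.card s ≤ r := by
    have h1 := hs.cardinalMk_eq_trdeg
    rw [← h1] at hr
    have h2 : Cardinal.mk s = (Nat.card s : ℕ) := by simp
    rw [h2] at hr
    exact_mod_cast hr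
  obtain ⟨e⟩ := exists_equiv_Kf k hs.1
  set K : IntermediateField k F := adjoin k (Set.range ((↑) : s → F)) with hK
  have halg : Algebra.IsAlgebraic K F := hs.isAlgebraic_field
  have hess : Algebra.EssFiniteType K F := Algebra.EssFiniteType.of_comp k K F
  have hfin : FiniteDimensional K F := by
    obtain ⟨S, hS⟩ := IntermediateField.fg_top (F := K) (E := F)
    have h1 : FiniteDimensional K (adjoin K (S : Set F)) :=
      finiteDimensional_adjoin fun x _ => (halg.isAlgebraic x).isIntegral
    rw [hS] at h1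
    exact Module.Finite.equiv (IntermediateField.topEquiv (F := K) (E := F)).toLinearEquiv
  let Es := separableClosure K F
  obtain ⟨α, hα⟩ := Field.exists_primitive_element K Es
  have hαi : IsIntegral K α := Algebra.IsIntegral.isIntegral α
  have e1 : Es ≃+* AdjoinRoot (minpoly K α) := by
    have e2 : K⟮α⟯ ≃ₐ[K] Es := (equivOfEq hα).trans topEquiv
    exact (e2.symm.trans (adjoinRootEquivAdjoin K hαi).symm).toRingEquiv
  let q := ringExpChar Es
  let φ : F →+* Es := IsPurelyInseparable.iterateFrobenius Es F q le_rfl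
  have key : ∀ (K' : Type) [Field K'] (e' : K ≃+* K'),
      ∃ (π : K'[X]) (_ : Fact (Irreducible π)), Nonempty (AdjoinRoot (minpoly K α) →+* AdjoinRoot π) := by
    intro K' _ e'
    let g : K →+* K' := (e' : K →+* K')
    have hirr : Irreducible ((minpoly K α).map g) := by
      have h3 := MulEquiv.irreducible_iff (Polynomial.mapEquiv e') (x := minpoly K α)
      exact h3.2 (minpoly.irreducible hαi)
    refine ⟨(minpoly K α).map g, ⟨hirr⟩, ⟨?_⟩⟩
    refine AdjoinRoot.lift ((AdjoinRoot.of ((minpoly K α).map g)).comp g)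
      (AdjoinRoot.root ((minpoly K α).map g)) ?_
    rw [← Polynomial.eval₂_map]
    exact AdjoinRoot.eval₂_root _
  obtain ⟨π, hπ, ⟨ψ⟩⟩ := key _ e.toRingEquiv
  exact ⟨_, hm, π, hπ, ⟨ψ.comp (e1.toRingHom.comp φ)⟩⟩

theorem zero_of_sur_fg (hT : IsMotivic T) (hi : i ≤ 1) {r : ℕ}
    (h : Sur T (algebraMap k (Kf k (r + 1))) i n) {F : Type} [Field F] [Algebra k F]
    [Algebra.EssFiniteType k F] (hr : Algebra.trdeg k F ≤ r) : Zero T F (i - 1) (n - 1) := by
  obtain ⟨m, hm, π, _, ⟨φ⟩⟩ := exists_model' hr
  exact (res_G (vr_transcendental k) hT r h m hm π).of_hom hT (by omega) φ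

theorem zero_of_sur (hT : IsMotivic T) (hi : i ≤ 1) {r : ℕ}
    (h : Sur T (algebraMap k (Kf k (r + 1))) i n) {F : Type} [Field F] [Algebra k F]
    (hr : Algebra.trdeg k F ≤ r) : Zero T F (i - 1) (n - 1) := by
  refine zero_of_fg (F := k) hT fun S => ?_
  have h1 : Algebra.EssFiniteType k (adjoin k (S : Set F)) :=
    essFiniteType_iff.2 (fg_adjoin_of_finite S.finite_toSet)
  refine zero_of_sur_fg hT hi h (le_trans ?_ hr)
  exact trdeg_le_of_injective (adjoin k (S : Set F)).val
    (adjoin k (S : Set F)).val.injective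

theorem sur_Kf (hT : IsMotivic T) {r : ℕ}
    (h : ∀ (F : Type) [Field F] [Algebra k F], Algebra.trdeg k F ≤ r → Zero T F (i - 1) (n - 1)) :
    ∀ m ≤ r + 1, Sur T (algebraMap k (Kf k m)) i n := by
  refine sur_G (vr_transcendental k) hT r fun m hm π _ => ?_
  refine h (AdjoinRoot π) ?_
  have hfin : FiniteDimensional (Kf k m) (AdjoinRoot π) :=
    (AdjoinRoot.powerBasis (Fact.out : Irreducible π).ne_zero).finite
  have halg : Algebra.IsAlgebraic (Kf k m) (AdjoinRoot π) := inferInstance
  rw [← trdeg_add_eq k (Kf k m) (A := AdjoinRoot π), trdeg_eq_zero_iff.2 halg,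
    add_zero]
  refine (trdeg_Kf k m).trans ?_
  exact_mod_cast hm

/-- transport along an isomorphism -/
theorem bij_equiv {E E' : Type} [Field E] [Field E'] [Algebra k E] [Algebra k E'] (e : E ≃ₐ[k] E') :
    (Sur T (algebraMap k E) i n ↔ Sur T (algebraMap k E') i n) ∧
    (Function.Injective (T.map (algebraMap k E') i n) →
      Function.Injective (T.map (algebraMap k E) i n)) := by
  have c1 : (e.toRingEquiv.toRingHom).comp (algebraMap k E) = algebraMap k E' :=
    RingHom.ext fun a => e.commutes a
  have c2 : (e.symm.toRingEquiv.toRingHom).comp (algebraMap k E') = algebraMap k E :=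
    RingHom.ext fun a => e.symm.commutes a
  have d1 : (e.symm.toRingEquiv.toRingHom).comp (e.toRingEquiv.toRingHom) = RingHom.id _ :=
    RingHom.ext fun a => e.symm_apply_apply a
  have d2 : (e.toRingEquiv.toRingHom).comp (e.symm.toRingEquiv.toRingHom) = RingHom.id _ :=
    RingHom.ext fun a => e.apply_symm_apply a
  refine ⟨⟨fun h => ?_, fun h => ?_⟩, fun h => ?_⟩
  · rw [← c1]
    exact Sur.comp (sur_of_comp _ _ d2) h
  · rw [← c2]
    exact Sur.comp (sur_of_comp _ _ d1) h
  · rw [← c2]
    exact comp_injective (inj_of_comp _ _ d2) h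

/-- **Bounded transcendence degree.** -/
theorem bij_iff (hT : IsMotivic T) (hi : i ≤ 1) (r : ℕ) :
    Function.Bijective (T.map (algebraMap k (FractionRing (MvPolynomial (Fin (r + 1)) k))) i n) ↔
      ∀ (F : Type) [Field F] [Algebra k F], Algebra.trdeg k F ≤ r → Zero T F (i - 1) (n - 1) := by
  obtain ⟨e⟩ := exists_equiv_fraction k (r + 1)
  have h1 := bij_equiv (T := T) (i := i) (n := n) e
  constructor
  · intro h F _ _ hF
    exact zero_of_sur hT hi (k := k) (h1.1.1 h.2) hF
  · intro h
    exact ⟨h1.2 (inj_G (vr_transcendental k) hT _), h1.1.2 (sur_Kf hT h _ le_rfl)⟩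

/-- **All extensions.** -/
theorem bij_rat_iff (hT : IsMotivic T) (hi : i ≤ 1) :
    Function.Bijective (T.map (algebraMap k (Rat k)) i n) ↔
      ∀ (F : Type) [Field F] [Algebra k F], Zero T F (i - 1) (n - 1) := by
  constructor
  · intro h F _ _
    refine zero_of_fg (F := k) hT fun S => ?_
    have h1 : Algebra.EssFiniteType k (adjoin k (S : Set F)) :=
      essFiniteType_iff.2 (fg_adjoin_of_finite S.finite_toSet)
    obtain ⟨r, hr⟩ := Cardinal.lt_aleph0.1 (trdeg_lt_aleph0 k (adjoin k (S : Set F)))
    refine zero_of_sur_fg hT hi (k := k) (r := r) ?_ hr.le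
    refine Sur.of_injective (g := algebraMap (Kf k (r + 1)) (Rat k))
      (top_injective (vr_transcendental k) hT (exists_mem_Kf k) _) ?_
    rw [← IsScalarTower.algebraMap_eq]
    exact h.2
  · intro h
    refine ⟨inj_L (vr_transcendental k) hT (exists_mem_Kf k), fun x => ?_⟩
    obtain ⟨S, y, rfl⟩ := hT.defined (F := k) i n x
    obtain ⟨m, hm⟩ := exists_mem_Kf k S
    have h1 : adjoin k (S : Set (Rat k)) ≤ Kf k m := adjoin_le_iff.2 hm
    obtain ⟨z, hz⟩ := sur_Kf hT (r := m) (fun F _ _ _ => h F) m (by omega)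
      (T.map (inclusion h1).toRingHom i n y)
    refine ⟨z, ?_⟩
    have h2 : algebraMap (adjoin k (S : Set (Rat k))) (Rat k) =
        (algebraMap (Kf k m) (Rat k)).comp (inclusion h1).toRingHom := RingHom.ext fun a => rfl
    rw [h2, T.map_comp, ← hz, ← T.map_comp, ← IsScalarTower.algebraMap_eq]

/-- one variable: `H^i(k, n) = H^i(k(t), n)` if and only if `H^(i-1)(F, n-1) = 0` for all algebraic
extensions `F` of `k` -/
theorem bij_ratFunc (hT : IsMotivic T)
    (h : ∀ (F : Type) [Field F] [Algebra k F], Zero T F (i - 1) (n - 1)) :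
    Function.Bijective (T.map (algebraMap k (RatFunc k)) i n) := by
  refine ⟨hT.injective i n, fun x => (hT.exact i n x).1 fun π _ => h (AdjoinRoot π) _⟩

theorem zero_of_ratFunc (hT : IsMotivic T) (hi : i ≤ 1)
    (h : Function.Bijective (T.map (algebraMap k (RatFunc k)) i n)) :
    Zero T k (i - 1) (n - 1) := by
  have h1 : Fact (Irreducible (X : k[X])) := ⟨irreducible_X⟩
  refine Zero.of_hom hT (by omega) (algebraMap k (AdjoinRoot (X : k[X]))) ?_
  intro x
  obtain ⟨y, rfl⟩ := hT.surjective X i n x
  exact (hT.exact i n y).2 (h.2 y) X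

end fields

open scoped TensorProduct in
/-- two extensions of a field are contained in a third -/
theorem exists_common (k₀ : Type) [Field k₀] (k F : Type) [Field k] [Field F] [Algebra k₀ k]
    [Algebra k₀ F] : ∃ (L : Type) (_ : Field L), Nonempty (k →+* L) ∧ Nonempty (F →+* L) := by
  have h1 : Nontrivial (k ⊗[k₀] F) := inferInstance
  obtain ⟨m, hm⟩ := Ideal.exists_maximal (k ⊗[k₀] F)
  refine ⟨(k ⊗[k₀] F) ⧸ m, Ideal.Quotient.field m, ⟨?_⟩, ⟨?_⟩⟩
  · exact (Ideal.Quotient.mk m).comp
      (Algebra.TensorProduct.includeLeft (R := k₀) (S := k₀) (A := k) (B := F)).toRingHom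
  · exact (Ideal.Quotient.mk m).comp
      (Algebra.TensorProduct.includeRight (R := k₀) (A := k) (B := F)).toRingHom

/-- two fields of the same characteristic are contained in a third -/
theorem exists_common_char (p : ℕ) (k F : Type) [Field k] [Field F] [CharP k p] [CharP F p] :
    ∃ (L : Type) (_ : Field L), Nonempty (k →+* L) ∧ Nonempty (F →+* L) := by
  rcases CharP.char_is_prime_or_zero F p with h1 | h1
  · have : Fact p.Prime := ⟨h1⟩
    let _ := ZMod.algebra F p
    let _ := ZMod.algebra k p
    exact exists_common (ZMod p) k F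
  · subst h1
    have : CharZero F := CharP.charP_to_charZero F
    have : CharZero k := CharP.charP_to_charZero k
    exact exists_common ℚ k F

end Pool.Agent.R696.RG
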