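import Pool.Agent.R696.RG.Main
set_option autoImplicit false

/-!
# Rational coefficients

If there is no torsion in any degree, all restriction maps are injective, and the vanishing of
`H^i(k(t_0, ..., t_r), n)` is equivalent to that of `H^(i-1)(F, n-1)` for all extensions `F` of `k` of
transcendence degree at most `r` (`zero_iff`), for all `i`, if `H^i(k, n) = 0`.
-/

namespace Pool.Agent.R696.RG

open Polynomial IntermediateField Pool.Agent.R388.BS

variable {T : FieldCohomology} {i n : ℤ}

/-- no torsion in all degrees -/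
def TorsionFree (T : FieldCohomology) : Prop :=
  ∀ {F : Type} [Field F] (i n : ℤ) (m : ℕ), m ≠ 0 → ∀ x : T.H F i n, m • x = 0 → x = 0

theorem simple_inj (hT : IsMotivic T) (hq : TorsionFree T) {F E : Type} [Field F] [Field E]
    [Algebra F E] (x : E) : Function.Injective (T.map (algebraMap F F⟮x⟯) i n) := by
  by_cases hx : Transcendental F x
  · have e := RatFunc.algEquivOfTranscendental (K := F) x hx
    have h1 : algebraMap F F⟮x⟯ = ((e : RatFunc F ≃+* F⟮x⟯) : RatFunc F →+* F⟮x⟯).comp
        (algebraMap F (RatFunc F)) := RingHom.ext fun a => (e.commutes a).symm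
    rw [h1]
    exact comp_injective (map_equiv_injective _ i n) (hT.injective i n)
  · have hx' : IsIntegral F x := by
      rw [← isAlgebraic_iff_isIntegral]
      unfold Transcendental at hx
      exact not_not.1 hx
    have := adjoin.finiteDimensional hx'
    obtain ⟨N, hN⟩ := hT.transfer (F := F) (E := F⟮x⟯) i n
    rw [injective_iff_map_eq_zero]
    intro y hy
    refine hq i n _ (Module.finrank_pos (R := F) (M := F⟮x⟯)).ne' y ?_
    rw [← hN, hy, map_zero]

theorem adjoin_inj (hT : IsMotivic T) (hq : TorsionFree T) {F E : Type} [Field F] [Field E]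
    [Algebra F E] (S : Finset E) :
    Function.Injective (T.map (algebraMap F (adjoin F (S : Set E))) i n) := by
  refine induction_on_adjoin_finset S
    (fun K => Function.Injective (T.map (algebraMap F K) i n)) ?_ ?_
  · have h1 : algebraMap F (⊥ : IntermediateField F E) =
        (((botEquiv F E).symm : F ≃+* (⊥ : IntermediateField F E)) : F →+* _) := by
      ext a
      simp
    rw [h1]
    exact map_equiv_injective _ i n
  · intro K x _ hK
    exact comp_injective (T := T) (g := algebraMap K K⟮x⟯) (f := algebraMap F K)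
      (simple_inj hT hq x) hK

theorem map_inj (hT : IsMotivic T) (hq : TorsionFree T) {F E : Type} [Field F] [Field E]
    (f : F →+* E) : Function.Injective (T.map f i n) := by
  let _ := f.toAlgebra
  rw [injective_iff_map_eq_zero]
  intro x hx
  obtain ⟨S, hS⟩ := hT.dies (F := F) (E := E) i n x hx
  exact (injective_iff_map_eq_zero _).1 (adjoin_inj hT hq S) x hS

theorem zero_hom (hT : IsMotivic T) (hq : TorsionFree T) {F E : Type} [Field F] [Field E]
    (f : F →+* E) (h : Zero T E i n) : Zero T F i n := h.of_injective (map_inj hT hq f)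

variable {k : Type} [Field k]

theorem zero_down (hT : IsMotivic T) (hq : TorsionFree T) {r : ℕ}
    (h : Zero T (FractionRing (MvPolynomial (Fin (r + 1)) k)) i n) {F : Type} [Field F]
    [Algebra k F] (hr : Algebra.trdeg k F ≤ r) : Zero T F (i - 1) (n - 1) := by
  obtain ⟨e⟩ := exists_equiv_fraction k (r + 1)
  have h0 : Zero T (Kf k (r + 1)) i n := h.of_equiv e.symm.toRingEquiv
  have h2 : Sur T (algebraMap k (Kf k (r + 1))) i n := by
    intro x
    exact ⟨0, by rw [map_zero, h0 x]⟩
  refine zero_of_fg (F := k) hT fun S => ?_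
  have h1 : Algebra.EssFiniteType k (adjoin k (S : Set F)) :=
    essFiniteType_iff.2 (fg_adjoin_of_finite S.finite_toSet)
  obtain ⟨m, hm, π, _, ⟨φ⟩⟩ := exists_model' (k := k) (F := adjoin k (S : Set F)) (r := r)
    (le_trans (trdeg_le_of_injective (adjoin k (S : Set F)).val
      (adjoin k (S : Set F)).val.injective) hr)
  exact zero_hom hT hq φ (res_G (vr_transcendental k) hT r h2 m hm π)

theorem zero_up (hT : IsMotivic T) {r : ℕ} (hk : Zero T k i n)
    (h : ∀ (F : Type) [Field F] [Algebra k F], Algebra.trdeg k F ≤ r → Zero T F (i - 1) (n - 1)) :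
    Zero T (FractionRing (MvPolynomial (Fin (r + 1)) k)) i n := by
  obtain ⟨e⟩ := exists_equiv_fraction k (r + 1)
  have h1 : Zero T (Kf k (r + 1)) i n := by
    intro x
    obtain ⟨y, rfl⟩ := sur_Kf hT h (r + 1) le_rfl x
    rw [hk y, map_zero]
  exact h1.of_equiv e.toRingEquiv

end Pool.Agent.R696.RG
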