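import Pool.Agent.R388.BS.Final
set_option autoImplicit false

/-!
# Classes which come from the field of constants

`H^i(k, n) → H^i(k(t_0, ..., t_r), n)` is onto if and only if `H^(i-1)(F, n-1) = 0` for all extensions
`F` of `k` of transcendence degree at most `r`, for `i ≤ 1` (`sur_iff`, `sur_rat_iff`).
-/

namespace Pool.Agent.R696.RG

open Polynomial IntermediateField Pool.Agent.R388.BS

/-- every class over `E` comes from `k` -/
def Sur (T : FieldCohomology) {k E : Type} [Field k] [Field E] (f : k →+* E) (i n : ℤ) : Prop :=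
  Function.Surjective (T.map f i n)

variable {T : FieldCohomology} {i n : ℤ}

theorem Sur.of_injective {k E L : Type} [Field k] [Field E] [Field L] {f : k →+* E} {g : E →+* L}
    (hg : Function.Injective (T.map g i n)) (h : Sur T (g.comp f) i n) : Sur T f i n := by
  intro x
  obtain ⟨y, hy⟩ := h (T.map g i n x)
  refine ⟨y, hg ?_⟩
  rw [← T.map_comp, hy]

theorem Sur.comp {k E L : Type} [Field k] [Field E] [Field L] {f : k →+* E} {g : E →+* L}
    (hg : Sur T g i n) (h : Sur T f i n) : Sur T (g.comp f) i n := by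
  intro x
  obtain ⟨y, rfl⟩ := hg x
  obtain ⟨z, rfl⟩ := h y
  exact ⟨z, T.map_comp g f i n z⟩

/-- a ring homomorphism with a right inverse -/
theorem sur_of_comp {E L : Type} [Field E] [Field L] (g : E →+* L) (s : L →+* E)
    (h : g.comp s = RingHom.id L) : Sur T g i n := by
  intro x
  refine ⟨T.map s i n x, ?_⟩
  rw [← T.map_comp, h, T.map_id]

/-- a ring homomorphism with a left inverse -/
theorem inj_of_comp {E L : Type} [Field E] [Field L] (g : E →+* L) (s : L →+* E)
    (h : s.comp g = RingHom.id E) : Function.Injective (T.map g i n) := by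
  intro x y hxy
  have h1 := congrArg (T.map s i n) hxy
  rwa [← T.map_comp, ← T.map_comp, h, T.map_id, T.map_id] at h1

theorem Sur.zero_residue (hT : IsMotivic T) {k F : Type} [Field k] [Field F] {f : k →+* F}
    (h : Sur T ((algebraMap F (RatFunc F)).comp f) i n) (π : F[X]) [Fact (Irreducible π)] :
    Zero T (AdjoinRoot π) (i - 1) (n - 1) := by
  intro x
  obtain ⟨y, rfl⟩ := hT.surjective π i n x
  obtain ⟨z, rfl⟩ := h y
  exact ((hT.exact i n _).2 ⟨T.map f i n z, (T.map_comp _ _ i n z).symm⟩) π

theorem Sur.ratFunc (hT : IsMotivic T) {k F : Type} [Field k] [Field F] {f : k →+* F}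
    (h : Sur T f i n)
    (h' : ∀ (π : F[X]) [Fact (Irreducible π)], Zero T (AdjoinRoot π) (i - 1) (n - 1)) :
    Sur T ((algebraMap F (RatFunc F)).comp f) i n := by
  refine Sur.comp ?_ h
  intro x
  exact (hT.exact i n x).1 fun π _ => h' π _

section tower

variable {k L : Type} [Field k] [Field L] [Algebra k L] (v : ℕ → L)

variable (k) in
/-- `k(v_0, ..., v_(m-1))` -/
noncomputable abbrev G (m : ℕ) : IntermediateField k L := adjoin k (v '' Set.Iio m)

theorem G_succ (m : ℕ) : ((G k v m)⟮v m⟯).restrictScalars k = G k v (m + 1) := by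
  rw [adjoin_adjoin_left]
  congr 1
  rw [← Set.image_singleton, ← Set.image_union]
  congr 1
  ext j
  simp only [Set.mem_union, Set.mem_Iio, Set.mem_singleton_iff]
  omega

/-- `K(t) → M` for an isomorphism of `A = K(t)` with `K(x)`, contained in `M` -/
noncomputable def upHom {A : Type} [Field A] {K M : IntermediateField k L} {x : L} [Algebra K A]
    (e : A ≃ₐ[K] K⟮x⟯) (h : K⟮x⟯.restrictScalars k ≤ M) : A →+* M :=
  (Subring.inclusion (show (K⟮x⟯).toSubalgebra.toSubring ≤ M.toSubalgebra.toSubring from h)).comp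
    e.toRingEquiv.toRingHom

/-- the inverse -/
noncomputable def downHom {A : Type} [Field A] {K M : IntermediateField k L} {x : L} [Algebra K A]
    (e : A ≃ₐ[K] K⟮x⟯) (h : M ≤ K⟮x⟯.restrictScalars k) : M →+* A :=
  e.symm.toRingEquiv.toRingHom.comp
    (Subring.inclusion (show M.toSubalgebra.toSubring ≤ (K⟮x⟯).toSubalgebra.toSubring from h))

theorem up_coe {A : Type} [Field A] {K M : IntermediateField k L} {x : L} [Algebra K A]
    (e : A ≃ₐ[K] K⟮x⟯) (h : K⟮x⟯.restrictScalars k ≤ M) (a : K) :
    ((upHom e h (algebraMap K A a) : M) : L) = a := by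
  have h1 : ((upHom e h (algebraMap K A a) : M) : L) = ((e (algebraMap K A a) : K⟮x⟯) : L) := rfl
  rw [h1, e.commutes]
  rfl

theorem down_up {A : Type} [Field A] {K M : IntermediateField k L} {x : L} [Algebra K A]
    (e : A ≃ₐ[K] K⟮x⟯) (h : K⟮x⟯.restrictScalars k ≤ M) (h' : M ≤ K⟮x⟯.restrictScalars k) :
    (downHom e h').comp (upHom e h) = RingHom.id _ := by
  refine RingHom.ext fun a => ?_
  have h1 : (downHom e h') (upHom e h a) = e.symm (e a) := rfl
  rw [RingHom.comp_apply, h1, AlgEquiv.symm_apply_apply]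
  rfl

theorem up_down {A : Type} [Field A] {K M : IntermediateField k L} {x : L} [Algebra K A]
    (e : A ≃ₐ[K] K⟮x⟯) (h : K⟮x⟯.restrictScalars k ≤ M) (h' : M ≤ K⟮x⟯.restrictScalars k) :
    (upHom e h).comp (downHom e h') = RingHom.id _ := by
  refine RingHom.ext fun a => Subtype.ext ?_
  have h1 : ((upHom e h (downHom e h' a) : M) : L) =
    ((e (e.symm (Subring.inclusion
      (show M.toSubalgebra.toSubring ≤ (K⟮x⟯).toSubalgebra.toSubring from h') a)) : K⟮x⟯) : L) := rfl
  rw [RingHom.comp_apply, h1, AlgEquiv.apply_symm_apply]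
  rfl

theorem incl_comp {K M : IntermediateField k L} (h : K ≤ M) :
    ((inclusion h).toRingHom).comp (algebraMap k K) = algebraMap k M :=
  RingHom.ext fun a => (inclusion h).commutes a

theorem up_comp {A : Type} [Field A] {K M : IntermediateField k L} {x : L} [Algebra K A]
    (e : A ≃ₐ[K] K⟮x⟯) (h : K⟮x⟯.restrictScalars k ≤ M) :
    (upHom e h).comp ((algebraMap K A).comp (algebraMap k K)) = algebraMap k M :=
  RingHom.ext fun a => Subtype.ext (by
    rw [RingHom.comp_apply, RingHom.comp_apply, up_coe]
    rfl)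

theorem up_incl {A : Type} [Field A] {N K M : IntermediateField k L} {x : L} [Algebra K A]
    (e : A ≃ₐ[K] K⟮x⟯) (h : K⟮x⟯.restrictScalars k ≤ M) (h1 : N ≤ K) (h2 : N ≤ M) :
    ((upHom e h).comp (algebraMap K A)).comp (inclusion h1).toRingHom =
      (inclusion h2).toRingHom :=
  RingHom.ext fun a => Subtype.ext (by
    rw [RingHom.comp_apply, RingHom.comp_apply, up_coe]
    rfl)

variable {v} (hv : ∀ m, Transcendental (G k v m) (v m))

theorem G_mono {m m' : ℕ} (h : m ≤ m') : G k v m ≤ G k v m' :=
  adjoin.mono k _ _ (Set.image_mono (Set.Iio_subset_Iio h))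

/-- `k(v_0, ..., v_(m-1))(t) → k(v_0, ..., v_m)` -/
noncomputable def up (m : ℕ) : RatFunc (G k v m) →+* G k v (m + 1) :=
  upHom (RatFunc.algEquivOfTranscendental _ (hv m)) (G_succ v m).le

/-- the inverse -/
noncomputable def down (m : ℕ) : G k v (m + 1) →+* RatFunc (G k v m) :=
  downHom (RatFunc.algEquivOfTranscendental _ (hv m)) (G_succ v m).ge

theorem sur_up (m : ℕ) : Sur T (up hv m) i n :=
  sur_of_comp _ (down hv m) (up_down _ _ _)

theorem inj_up (m : ℕ) : Function.Injective (T.map (up hv m) i n) :=
  inj_of_comp _ (down hv m) (down_up _ _ _)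

theorem up_incl' (m : ℕ) {N : IntermediateField k L} (h1 : N ≤ G k v m)
    (h2 : N ≤ G k v (m + 1)) :
    ((up hv m).comp (algebraMap (G k v m) (RatFunc (G k v m)))).comp (inclusion h1).toRingHom =
      (inclusion h2).toRingHom := up_incl _ _ h1 h2

theorem up_comp' (m : ℕ) : (up hv m).comp ((algebraMap (G k v m) (RatFunc (G k v m))).comp
    (algebraMap k (G k v m))) = algebraMap k (G k v (m + 1)) := up_comp _ _

include hv in
theorem incl_injective (hT : IsMotivic T) {m m' : ℕ} (h : m ≤ m') :
    Function.Injective (T.map (inclusion (G_mono (v := v) (k := k) h)).toRingHom i n) := by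
  induction m', h using Nat.le_induction with
  | base =>
    refine inj_of_comp _ (RingHom.id _) (RingHom.ext fun a => Subtype.ext rfl)
  | succ q hq ih =>
    rw [← up_incl' hv q (G_mono (v := v) (k := k) hq)
      (G_mono (v := v) (k := k) (Nat.le_succ_of_le hq))]
    exact comp_injective (comp_injective (inj_up hv q) (hT.injective i n)) ih

include hv in
theorem top_injective (hT : IsMotivic T)
    (hL : ∀ S : Finset L, ∃ m, (S : Set L) ⊆ G k v m) (m : ℕ) :
    Function.Injective (T.map (algebraMap (G k v m) L) i n) := by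
  rw [injective_iff_map_eq_zero]
  intro x hx
  obtain ⟨S, hS⟩ := hT.dies (F := G k v m) (E := L) i n x hx
  obtain ⟨N, hN⟩ := hL S
  set M := max m N with hM
  have h1 : ∀ a ∈ adjoin (G k v m) (S : Set L), a ∈ G k v M := by
    have h2 : (adjoin (G k v m) (S : Set L)).restrictScalars k ≤ G k v M := by
      have e : (adjoin (G k v m) (S : Set L)).restrictScalars k =
          adjoin k (v '' Set.Iio m ∪ (S : Set L)) := adjoin_adjoin_left k _ _
      rw [e, adjoin_le_iff]
      refine Set.union_subset ?_ (hN.trans ?_)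
      · exact (Set.image_mono (Set.Iio_subset_Iio (le_max_left m N))).trans (subset_adjoin k _)
      · exact G_mono (le_max_right m N)
    exact fun a ha => h2 ha
  let g : adjoin (G k v m) (S : Set L) →+* G k v M :=
    Subring.inclusion (show (adjoin (G k v m) (S : Set L)).toSubalgebra.toSubring ≤
      (G k v M).toSubalgebra.toSubring from h1)
  have h3 : g.comp (algebraMap (G k v m) (adjoin (G k v m) (S : Set L))) =
      (inclusion (G_mono (v := v) (k := k) (le_max_left m N))).toRingHom :=
    RingHom.ext fun a => Subtype.ext rfl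
  refine (injective_iff_map_eq_zero _).1 (incl_injective hv hT (le_max_left m N)) x ?_
  rw [← h3, T.map_comp, hS, map_zero]

variable (k v) in
theorem sur_zero : Sur T (algebraMap k (G k v 0)) i n ∧
    Function.Injective (T.map (algebraMap k (G k v 0)) i n) := by
  have h0 : G k v 0 = ⊥ := by
    unfold G
    rw [show Set.Iio 0 = (∅ : Set ℕ) by ext; simp, Set.image_empty, adjoin_empty]
  let e : G k v 0 ≃ₐ[k] k := (equivOfEq h0).trans (botEquiv k L)
  have h1 : (algebraMap k (G k v 0)).comp (e.toRingEquiv.toRingHom) = RingHom.id _ := by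
    refine RingHom.ext fun a => ?_
    have h2 : algebraMap k (G k v 0) (e a) = e.symm (e a) := (e.symm.commutes (e a)).symm
    have h3 : e.symm (e a) = a := e.symm_apply_apply a
    exact h2.trans h3
  have h4 : (e.toRingEquiv.toRingHom).comp (algebraMap k (G k v 0)) = RingHom.id _ :=
    RingHom.ext fun a => e.commutes a
  exact ⟨sur_of_comp _ _ h1, inj_of_comp _ _ h4⟩

include hv in
theorem inj_G (hT : IsMotivic T) (m : ℕ) :
    Function.Injective (T.map (algebraMap k (G k v m)) i n) := by
  have h := incl_comp (G_mono (v := v) (k := k) (Nat.zero_le m))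
  rw [← h]
  exact comp_injective (incl_injective hv hT (Nat.zero_le m)) (sur_zero k v).2

include hv in
theorem inj_L (hT : IsMotivic T) (hL : ∀ S : Finset L, ∃ m, (S : Set L) ⊆ G k v m) :
    Function.Injective (T.map (algebraMap k L) i n) := by
  rw [IsScalarTower.algebraMap_eq k (G k v 0) L]
  exact comp_injective (top_injective hv hT hL 0) (sur_zero k v).2

include hv in
/-- if the residues vanish -/
theorem sur_G (hT : IsMotivic T) (r : ℕ)
    (h : ∀ m ≤ r, ∀ (π : (G k v m)[X]) [Fact (Irreducible π)],
      Zero T (AdjoinRoot π) (i - 1) (n - 1)) :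
    ∀ m ≤ r + 1, Sur T (algebraMap k (G k v m)) i n := by
  intro m
  induction m with
  | zero =>
    intro _
    exact (sur_zero k v).1
  | succ m ih =>
    intro hm
    rw [← up_comp' hv m]
    exact Sur.comp (sur_up hv m) (Sur.ratFunc hT (ih (by omega)) fun π _ =>
      h m (by omega) π)

include hv in
/-- the residues vanish -/
theorem res_G (hT : IsMotivic T) (r : ℕ) (h : Sur T (algebraMap k (G k v (r + 1))) i n) :
    ∀ m ≤ r, ∀ (π : (G k v m)[X]) [Fact (Irreducible π)],
      Zero T (AdjoinRoot π) (i - 1) (n - 1) := by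
  intro m hm π _
  have h1 : Sur T (algebraMap k (G k v (m + 1))) i n := by
    refine Sur.of_injective (g := (inclusion (G_mono (v := v) (k := k)
      (Nat.succ_le_succ hm))).toRingHom) (incl_injective hv hT (Nat.succ_le_succ hm)) ?_
    rw [incl_comp]
    exact h
  have h2 : Sur T ((algebraMap (G k v m) (RatFunc (G k v m))).comp (algebraMap k (G k v m)))
      i n := by
    refine Sur.of_injective (g := up hv m) (inj_up hv m) ?_
    rw [up_comp' hv m]
    exact h1
  exact h2.zero_residue hT π

end tower

end Pool.Agent.R696.RG
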